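import Mathlib

set_option autoImplicit false

namespace Pool.Agent.H8.HC

open Topology Set Polynomial

theorem card_le (X : Type) [TopologicalSpace X] [TopologicalSpace.MetrizableSpace X]
    [TopologicalSpace.SeparableSpace X] : Cardinal.mk X ≤ Cardinal.continuum := by
  have h2 : SecondCountableTopology X := by
    letI := TopologicalSpace.metrizableSpaceMetric X
    exact UniformSpace.secondCountable_of_separable X
  let b := TopologicalSpace.countableBasis X
  have hb : b.Countable := TopologicalSpace.countable_countableBasis X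
  have hbb : TopologicalSpace.IsTopologicalBasis b := TopologicalSpace.isBasis_countableBasis X
  have hinj : Function.Injective (fun x : X => {u : b | x ∈ u.1}) := by
    intro x y hxy
    by_contra hne
    obtain ⟨U, V, hU, hV, hx, hy, hUV⟩ := t2_separation hne
    obtain ⟨u, hu, hxu, huU⟩ := hbb.exists_subset_of_mem_open hx hU
    have h3 : (⟨u, hu⟩ : b) ∈ {u : b | x ∈ u.1} := hxu
    have h4 : {u : b | x ∈ u.1} = {u : b | y ∈ u.1} := hxy
    rw [h4] at h3
    exact Set.disjoint_left.1 hUV (huU h3) hy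
  have h5 := Cardinal.mk_le_of_injective hinj
  have h6 : Cardinal.mk b ≤ Cardinal.aleph0 := by
    have : Countable b := hb.to_subtype
    exact Cardinal.mk_le_aleph0
  calc Cardinal.mk X ≤ Cardinal.mk (Set b) := h5
    _ = 2 ^ Cardinal.mk b := Cardinal.mk_set
    _ ≤ 2 ^ Cardinal.aleph0 := Cardinal.power_le_power_left two_ne_zero h6
    _ = Cardinal.continuum := Cardinal.two_power_aleph0

section FD

variable {𝕂 : Type} [RCLike 𝕂] {Q : Type} [AddCommGroup Q] [Module 𝕂 Q] [TopologicalSpace Q]
  [IsTopologicalAddGroup Q] [ContinuousSMul 𝕂 Q] [T2Space Q] [FiniteDimensional 𝕂 Q]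

/-- no dense orbits in nonzero finite dimensional spaces -/
theorem fd_trivial (S : Q →ₗ[𝕂] Q) (v : Q) (hv : Dense (range fun n : ℕ => (S ^ n) v)) :
    Subsingleton Q := by
  by_contra hns
  have hnt : Nontrivial Q := not_subsingleton_iff_nontrivial.1 hns
  have hspan : Submodule.span 𝕂 (range fun n : ℕ => (S ^ n) v) = ⊤ := by
    have h1 : IsClosed ((Submodule.span 𝕂 (range fun n : ℕ => (S ^ n) v) : Submodule 𝕂 Q) : Set Q) :=
      Submodule.closed_of_finiteDimensional _
    rw [Submodule.eq_top_iff']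
    intro w
    have h2 : closure (range fun n : ℕ => (S ^ n) v) ⊆
        ((Submodule.span 𝕂 (range fun n : ℕ => (S ^ n) v) : Submodule 𝕂 Q) : Set Q) :=
      closure_minimal Submodule.subset_span h1
    exact h2 (hv w)
  obtain ⟨B, hB1, hB2, hB3⟩ := exists_linearIndependent 𝕂 (range fun n : ℕ => (S ^ n) v)
  rw [hspan] at hB2
  let b : Module.Basis B 𝕂 Q := Module.Basis.mk hB3 (by
    rw [Subtype.range_coe_subtype]
    simp only [setOf_mem_eq]
    exact hB2.ge)
  have hBfin : Finite B := Module.Finite.finite_basis b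
  have : Fintype B := Fintype.ofFinite B
  classical
  have hex : ∀ i : B, ∃ n : ℕ, (S ^ n) v = i.1 := fun i => hB1 i.2
  choose n hn using hex
  have hbi : ∀ i : B, b i = (S ^ (n i)) v := by
    intro i
    rw [hn i]
    simp [b]
  let δ : Q → 𝕂 := fun w => b.det (fun i => (S ^ (n i)) w)
  have hδc : Continuous δ := by
    have h1 : ∀ w, δ w = Matrix.det (Matrix.of fun i j => b.repr ((S ^ (n j)) w) i) := by
      intro w
      simp only [δ]
      rw [Module.Basis.det_apply]
      rfl
    have h2 : δ = fun w => Matrix.det (Matrix.of fun i j => b.repr ((S ^ (n j)) w) i) := funext h1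
    rw [h2]
    apply Continuous.matrix_det
    apply continuous_matrix
    intro i j
    have h3 : Continuous ((b.coord i) ∘ₗ (S ^ (n j))) :=
      LinearMap.continuous_of_finiteDimensional _
    exact h3
  have hδv : ∀ k : ℕ, δ ((S ^ k) v) = (LinearMap.det S) ^ k := by
    intro k
    simp only [δ]
    have h1 : (fun i => (S ^ (n i)) ((S ^ k) v)) = (S ^ k) ∘ b := by
      ext i
      rw [Function.comp_apply, hbi i, ← Module.End.mul_apply, ← Module.End.mul_apply, ← pow_add,
        ← pow_add, add_comm]
    rw [h1, Module.Basis.det_comp, Module.Basis.det_self, mul_one, map_pow]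
  have hδs : ∀ (c : 𝕂), δ (c • v) = c ^ (Fintype.card B) := by
    intro c
    simp only [δ]
    have h1 : (fun i => (S ^ (n i)) (c • v)) = fun i => (fun _ : B => c) i • b i := by
      ext i
      rw [map_smul, hbi i]
    rw [h1, AlternatingMap.map_smul_univ, Module.Basis.det_self, Finset.prod_const, smul_eq_mul,
      mul_one, Finset.card_univ]
  have hcard : 0 < Fintype.card B := by
    have : Nonempty B := b.index_nonempty
    exact Fintype.card_pos
  have hdense : ∀ w : Q, δ w ∈ closure (range fun k : ℕ => (LinearMap.det S) ^ k) := by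
    intro w
    have h1 : w ∈ closure (range fun n : ℕ => (S ^ n) v) := hv w
    have h2 := image_closure_subset_closure_image hδc (mem_image_of_mem δ h1)
    rw [← range_comp] at h2
    have h3 : (δ ∘ fun n : ℕ => (S ^ n) v) = fun k : ℕ => (LinearMap.det S) ^ k := by
      ext k
      exact hδv k
    rw [h3] at h2
    exact h2
  rcases le_or_gt ‖LinearMap.det S‖ 1 with h | h
  · have h1 : closure (range fun k : ℕ => (LinearMap.det S) ^ k) ⊆ Metric.closedBall 0 1 := by
      apply closure_minimal _ Metric.isClosed_closedBall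
      rintro _ ⟨k, rfl⟩
      rw [mem_closedBall_zero_iff, norm_pow]
      exact pow_le_one₀ (norm_nonneg _) h
    have h2 := h1 (hdense ((2 : 𝕂) • v))
    rw [hδs, mem_closedBall_zero_iff, norm_pow] at h2
    have h3 : ‖(2 : 𝕂)‖ = 2 := by simp
    rw [h3] at h2
    have h4 : (1 : ℝ) < 2 ^ Fintype.card B := one_lt_pow₀ (by norm_num) hcard.ne'
    linarith
  · have h1 : closure (range fun k : ℕ => (LinearMap.det S) ^ k) ⊆ {z | 1 ≤ ‖z‖} := by
      apply closure_minimal _ (isClosed_le continuous_const continuous_norm)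
      rintro _ ⟨k, rfl⟩
      simp only [mem_ofPred_eq, norm_pow]
      exact one_le_pow₀ h.le
    have h2 := h1 (hdense ((2 : 𝕂)⁻¹ • v))
    rw [hδs, mem_ofPred_eq, norm_pow, norm_inv] at h2
    have h3 : ‖(2 : 𝕂)‖ = 2 := by simp
    rw [h3] at h2
    have h4 : (2⁻¹ : ℝ) ^ Fintype.card B < 1 := pow_lt_one₀ (by norm_num) (by norm_num) hcard.ne'
    linarith

end FD

section HCR

variable {𝕂 : Type} [RCLike 𝕂] {X : Type} [AddCommGroup X] [Module 𝕂 X] [TopologicalSpace X]
  [IsTopologicalAddGroup X] [ContinuousSMul 𝕂 X]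

theorem dense_range (T : X →L[𝕂] X) (x : X) (hx : Dense (range fun n : ℕ => (T ^ n) x))
    (R : 𝕂[X]) (hR : R ≠ 0) : DenseRange (aeval T R : X →L[𝕂] X) := by
  let W : Submodule 𝕂 X := (LinearMap.range ((aeval T R : X →L[𝕂] X) : X →ₗ[𝕂] X)).topologicalClosure
  have hWc : IsClosed (W : Set X) := Submodule.isClosed_topologicalClosure _
  have hcomm : ∀ y, T ((aeval T R : X →L[𝕂] X) y) = (aeval T R : X →L[𝕂] X) (T y) := by
    intro y
    have h1 : T * (aeval T R : X →L[𝕂] X) = (aeval T R : X →L[𝕂] X) * T := by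
      have h2 : aeval T (Polynomial.X * R) = aeval T (R * Polynomial.X) := by rw [mul_comm]
      rw [map_mul, map_mul, aeval_X] at h2
      exact h2
    exact congrArg (fun L : X →L[𝕂] X => L y) h1
  have hWT : W ≤ W.comap (T : X →ₗ[𝕂] X) := by
    intro w hw
    rw [Submodule.mem_comap]
    have h1 : w ∈ closure (range (aeval T R : X →L[𝕂] X)) := hw
    have h2 := image_closure_subset_closure_image T.continuous (mem_image_of_mem T h1)
    refine closure_mono ?_ h2
    rintro _ ⟨_, ⟨y, rfl⟩, rfl⟩
    exact ⟨T y, (hcomm y).symm⟩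
  have : IsClosed (W : Set X) := hWc
  let S : (X ⧸ W) →ₗ[𝕂] (X ⧸ W) := W.mapQ W (T : X →ₗ[𝕂] X) hWT
  have hS : ∀ n : ℕ, (S ^ n) (W.mkQ x) = W.mkQ ((T ^ n) x) := by
    intro n
    induction n with
    | zero => rfl
    | succ n ih =>
      rw [pow_succ', Module.End.mul_apply, ih, pow_succ']
      rfl
  have hdense : Dense (range fun n : ℕ => (S ^ n) (W.mkQ x)) := by
    have h1 : (range fun n : ℕ => (S ^ n) (W.mkQ x)) = W.mkQ '' (range fun n : ℕ => (T ^ n) x) := by
      rw [← range_comp]
      congr 1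
      ext n
      exact hS n
    rw [h1]
    have h2 : Continuous W.mkQ := continuous_quotient_mk'
    have h3 : DenseRange W.mkQ := (Submodule.mkQ_surjective W).denseRange
    exact h3.dense_image h2 hx
  -- finite dimensionality
  let F : Submodule 𝕂 (X ⧸ W) :=
    Submodule.span 𝕂 (range fun i : Fin R.natDegree => W.mkQ ((T ^ (i : ℕ)) x))
  have hFfd : FiniteDimensional 𝕂 F := FiniteDimensional.span_of_finite 𝕂 (finite_range _)
  have hmem : ∀ n : ℕ, W.mkQ ((T ^ n) x) ∈ F := by
    intro n
    have h1 : (Polynomial.X ^ n : 𝕂[X]) = R * (Polynomial.X ^ n / R) + Polynomial.X ^ n % R :=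
      (EuclideanDomain.div_add_mod _ _).symm
    have h2 : (T ^ n : X →L[𝕂] X) = aeval T R * aeval T (Polynomial.X ^ n / R) +
        aeval T (Polynomial.X ^ n % R) := by
      rw [← map_mul, ← map_add, ← h1, map_pow, aeval_X]
    have h3 : (T ^ n) x = (aeval T R : X →L[𝕂] X) ((aeval T (Polynomial.X ^ n / R) : X →L[𝕂] X) x) +
        (aeval T (Polynomial.X ^ n % R) : X →L[𝕂] X) x := by
      conv_lhs => rw [h2]
      rfl
    rw [h3, map_add]
    apply F.add_mem
    · have h4 : W.mkQ ((aeval T R : X →L[𝕂] X) ((aeval T (Polynomial.X ^ n / R) : X →L[𝕂] X) x)) = 0 := by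
        rw [Submodule.mkQ_apply, Submodule.Quotient.mk_eq_zero]
        exact Submodule.le_topologicalClosure _ ⟨_, rfl⟩
      rw [h4]
      exact F.zero_mem
    · rcases eq_or_ne (Polynomial.X ^ n % R) 0 with h0 | h0
      · rw [h0, map_zero]
        simp
      · have hdeg : (Polynomial.X ^ n % R).natDegree < R.natDegree := by
          apply Polynomial.natDegree_lt_natDegree h0
          exact Polynomial.degree_mod_lt _ hR
        rw [aeval_eq_sum_range' hdeg, ContinuousLinearMap.sum_apply, map_sum]
        apply F.sum_mem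
        intro i hi
        rw [Finset.mem_range] at hi
        have h5 : W.mkQ (((Polynomial.X ^ n % R).coeff i • T ^ i : X →L[𝕂] X) x) =
            (Polynomial.X ^ n % R).coeff i • W.mkQ ((T ^ i) x) := by
          rw [← map_smul]
          rfl
        rw [h5]
        apply F.smul_mem
        exact Submodule.subset_span ⟨⟨i, hi⟩, rfl⟩
  have hFtop : F = ⊤ := by
    have h1 : IsClosed (F : Set (X ⧸ W)) := Submodule.closed_of_finiteDimensional _
    rw [Submodule.eq_top_iff']
    intro w
    have h2 : closure (range fun n : ℕ => (S ^ n) (W.mkQ x)) ⊆ (F : Set (X ⧸ W)) := by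
      apply closure_minimal _ h1
      rintro _ ⟨n, rfl⟩
      simp only
      rw [hS n]
      exact hmem n
    exact h2 (hdense w)
  have hfd : FiniteDimensional 𝕂 (X ⧸ W) := by
    rw [hFtop] at hFfd
    exact Module.finite_def.2 (Module.Finite.iff_fg.1 hFfd)
  have hsub := fd_trivial S (W.mkQ x) hdense
  have hWtop : W = ⊤ := by
    rw [Submodule.eq_top_iff']
    intro w
    have : W.mkQ w = 0 := Subsingleton.elim _ _
    rwa [Submodule.mkQ_apply, Submodule.Quotient.mk_eq_zero] at this
  intro w
  have : w ∈ W := hWtop ▸ Submodule.mem_top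
  exact this

theorem hc_poly (T : X →L[𝕂] X) (x : X) (hx : Dense (range fun n : ℕ => (T ^ n) x))
    (R : 𝕂[X]) (hR : R ≠ 0) :
    Dense (range fun n : ℕ => (T ^ n) ((aeval T R : X →L[𝕂] X) x)) := by
  have h1 := dense_range T x hx R hR
  have h2 : (range fun n : ℕ => (T ^ n) ((aeval T R : X →L[𝕂] X) x)) =
      (aeval T R : X →L[𝕂] X) '' (range fun n : ℕ => (T ^ n) x) := by
    rw [← range_comp]
    congr 1
    ext n
    have h3 : (T ^ n) * (aeval T R : X →L[𝕂] X) = (aeval T R : X →L[𝕂] X) * (T ^ n) := by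
      have h4 : aeval T (Polynomial.X ^ n * R) = aeval T (R * Polynomial.X ^ n) := by rw [mul_comm]
      rw [map_mul, map_mul, map_pow, aeval_X] at h4
      exact h4
    exact congrArg (fun L : X →L[𝕂] X => L x) h3
  rw [h2]
  exact h1.dense_image (aeval T R : X →L[𝕂] X).continuous hx

end HCR

end Pool.Agent.H8.HC
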