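import Mathlib
import Pool.Agent.H8.HC.A

set_option autoImplicit false

namespace Pool.Agent.H8.HC

open Topology Set Polynomial Filter

section

variable {𝕂 : Type} [RCLike 𝕂] {X : Type} [AddCommGroup X] [Module 𝕂 X] [UniformSpace X]
  [IsUniformAddGroup X] [ContinuousSMul 𝕂 X] (T : X →L[𝕂] X) (x : X)
  (B : ℕ → Set X) (V : ℕ → Set X)

/-- covering property -/
def Cov (N : ℕ) (ε : ℝ) (ν : ℕ) : Prop := ∀ m ≤ N, (B m).Nonempty → ∀ r : Fin (N + 1) → 𝕂,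
  (∀ j, ‖r j‖ ≤ N) → ε ≤ ‖r (Fin.last N)‖ → ∃ n ≤ ν, (T ^ n) (∑ j, r j • (T ^ (j : ℕ)) x) ∈ B m

theorem cov_one (hx : Dense (range fun n : ℕ => (T ^ n) x)) (U : Set X) (hU : IsOpen U)
    (hne : U.Nonempty) (N : ℕ) (ε : ℝ) (hε : 0 < ε) : ∃ ν : ℕ, ∀ r : Fin (N + 1) → 𝕂,
  (∀ j, ‖r j‖ ≤ N) → ε ≤ ‖r (Fin.last N)‖ → ∃ n ≤ ν, (T ^ n) (∑ j, r j • (T ^ (j : ℕ)) x) ∈ U := by
  let K : Set (Fin (N + 1) → 𝕂) := {r | (∀ j, ‖r j‖ ≤ N) ∧ ε ≤ ‖r (Fin.last N)‖}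
  have hK : IsCompact K := by
    have h1 : IsCompact (Set.pi univ (fun _ : Fin (N + 1) => Metric.closedBall (0 : 𝕂) N)) :=
      isCompact_univ_pi (fun _ => isCompact_closedBall _ _)
    have h2 : IsClosed {r : Fin (N + 1) → 𝕂 | ε ≤ ‖r (Fin.last N)‖} :=
      isClosed_le continuous_const (continuous_apply (Fin.last N)).norm
    have h3 : K = Set.pi univ (fun _ : Fin (N + 1) => Metric.closedBall (0 : 𝕂) N) ∩
        {r : Fin (N + 1) → 𝕂 | ε ≤ ‖r (Fin.last N)‖} := by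
      ext r
      simp [K]
    rw [h3]
    exact h1.inter_right h2
  let O : ℕ → Set (Fin (N + 1) → 𝕂) := fun n =>
    (fun r : Fin (N + 1) → 𝕂 => (T ^ n) (∑ j, r j • (T ^ (j : ℕ)) x)) ⁻¹' U
  have hO : ∀ n, IsOpen (O n) := by
    intro n
    apply hU.preimage
    apply (T ^ n).continuous.comp
    apply continuous_finset_sum
    intro j _
    exact (continuous_apply j).smul continuous_const
  have hcov : K ⊆ ⋃ n, O n := by
    rintro r ⟨hr1, hr2⟩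
    let R : 𝕂[X] := ∑ j : Fin (N + 1), Polynomial.monomial (j : ℕ) (r j)
    have hRc : R.coeff N = r (Fin.last N) := by
      simp only [R, Polynomial.finset_sum_coeff, Polynomial.coeff_monomial]
      rw [Finset.sum_eq_single (Fin.last N)]
      · simp
      · intro b _ hb
        rw [if_neg]
        intro h
        exact hb (Fin.ext h)
      · intro h
        exact absurd (Finset.mem_univ _) h
    have hR : R ≠ 0 := by
      intro h
      rw [h, Polynomial.coeff_zero] at hRc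
      rw [← hRc, norm_zero] at hr2
      linarith
    have hev : (aeval T R : X →L[𝕂] X) x = ∑ j, r j • (T ^ (j : ℕ)) x := by
      simp only [R, map_sum, Polynomial.aeval_monomial]
      rw [ContinuousLinearMap.sum_apply]
      apply Finset.sum_congr rfl
      intro j _
      rw [Algebra.algebraMap_eq_smul_one, smul_mul_assoc, one_mul]
      rfl
    obtain ⟨_, hy, ⟨n, rfl⟩⟩ := (hc_poly T x hx R hR).inter_open_nonempty U hU hne
    rw [mem_iUnion]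
    refine ⟨n, ?_⟩
    simp only at hy
    rw [hev] at hy
    exact hy
  obtain ⟨t, ht⟩ := hK.elim_finite_subcover O hO hcov
  refine ⟨t.sup id, fun r hr1 hr2 => ?_⟩
  have h1 := ht ⟨hr1, hr2⟩
  rw [mem_iUnion₂] at h1
  obtain ⟨n, hn, hn'⟩ := h1
  exact ⟨n, Finset.le_sup (f := id) hn, hn'⟩

theorem cov_exists (hx : Dense (range fun n : ℕ => (T ^ n) x)) (hB : ∀ m, IsOpen (B m))
    (N : ℕ) (ε : ℝ) (hε : 0 < ε) : ∃ ν, Cov T x B N ε ν := by
  have h1 : ∀ m, (B m).Nonempty → ∃ ν : ℕ, ∀ r : Fin (N + 1) → 𝕂,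
      (∀ j, ‖r j‖ ≤ N) → ε ≤ ‖r (Fin.last N)‖ →
        ∃ n ≤ ν, (T ^ n) (∑ j, r j • (T ^ (j : ℕ)) x) ∈ B m :=
    fun m hm => cov_one T x hx (B m) (hB m) hm N ε hε
  choose! ν hν using h1
  refine ⟨(Finset.range (N + 1)).sup ν, ?_⟩
  intro m hm hne r hr1 hr2
  obtain ⟨n, hn, hn'⟩ := hν m hne r hr1 hr2
  exact ⟨n, hn.trans (Finset.le_sup (Finset.mem_range.2 (by omega))), hn'⟩

/-- smallness property -/
def Small (N : ℕ) (a : ℝ) (ν : ℕ) : Prop := ∀ s : 𝕂, ‖s‖ ≤ N + 1 → ∀ j ≤ ν,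
  ((a : 𝕂) * s) • (T ^ (N + 1 + j)) x ∈ V N

theorem small_exists (hV : ∀ n, V n ∈ 𝓝 (0 : X)) (N ν : ℕ) :
    ∃ a : ℝ, 0 < a ∧ a ≤ 1 ∧ Small T x V N a ν := by
  have h1 : ∀ j ∈ Finset.range (ν + 1), ∀ᶠ c : 𝕂 in 𝓝 0, c • (T ^ (N + 1 + j)) x ∈ V N := by
    intro j _
    have h2 : Tendsto (fun c : 𝕂 => c • (T ^ (N + 1 + j)) x) (𝓝 0) (𝓝 ((0 : 𝕂) • (T ^ (N + 1 + j)) x)) :=
      (continuous_id.smul continuous_const).tendsto 0
    rw [zero_smul] at h2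
    exact h2 (hV N)
  rw [← Finset.eventually_all] at h1
  obtain ⟨δ, hδ, h2⟩ := Metric.eventually_nhds_iff.1 h1
  have hN : (0 : ℝ) < N + 1 := by positivity
  refine ⟨min 1 (δ / (2 * (N + 1))), lt_min zero_lt_one (by positivity), min_le_left _ _, ?_⟩
  intro s hs j hj
  apply h2 _ j (Finset.mem_range.2 (by omega))
  rw [dist_zero_right, norm_mul, RCLike.norm_ofReal, abs_of_pos (lt_min zero_lt_one (by positivity))]
  calc min 1 (δ / (2 * (N + 1))) * ‖s‖ ≤ δ / (2 * (N + 1)) * (N + 1) := by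
        apply mul_le_mul (min_le_right _ _) hs (norm_nonneg _) (by positivity)
    _ = δ / 2 := by field_simp
    _ < δ := half_lt_self hδ

theorem seq_exists (hx : Dense (range fun n : ℕ => (T ^ n) x)) (hB : ∀ m, IsOpen (B m))
    (hV : ∀ n, V n ∈ 𝓝 (0 : X)) : ∃ (a : ℕ → ℝ) (ν : ℕ → ℕ), (∀ N, 0 < a N) ∧ (∀ N, a N ≤ 1) ∧
      (∀ N, Small T x V N (a N) (ν N)) ∧ (∀ N, ν N ≤ ν (N + 1)) ∧
      (∀ N, Cov T x B (N + 1) (a N / 2 ^ (N + 1)) (ν (N + 1))) := by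
  have h1 := cov_exists T x B hx hB
  choose! covN hcov using h1
  have h2 := small_exists T x V hV
  choose smallA hs1 hs2 hs3 using h2
  let st : ℕ → ℝ × ℕ := fun N => Nat.rec (motive := fun _ => ℝ × ℕ) (smallA 0 0, 0)
    (fun N p => (smallA (N + 1) (max p.2 (covN (N + 1) (p.1 / 2 ^ (N + 1)))),
      max p.2 (covN (N + 1) (p.1 / 2 ^ (N + 1))))) N
  have hst : ∀ N, st (N + 1) =
      (smallA (N + 1) (max (st N).2 (covN (N + 1) ((st N).1 / 2 ^ (N + 1)))),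
      max (st N).2 (covN (N + 1) ((st N).1 / 2 ^ (N + 1)))) := fun N => rfl
  have hform : ∀ N, (st N).1 = smallA N (st N).2 := by
    intro N
    cases N with
    | zero => rfl
    | succ N => rw [hst N]
  refine ⟨fun N => (st N).1, fun N => (st N).2, ?_, ?_, ?_, ?_, ?_⟩
  · intro N
    simp only
    rw [hform N]
    exact hs1 _ _
  · intro N
    simp only
    rw [hform N]
    exact hs2 _ _
  · intro N
    simp only
    rw [hform N]
    exact hs3 _ _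
  · intro N
    simp only
    rw [hst N]
    exact le_max_left _ _
  · intro N
    have hpos : 0 < (st N).1 / 2 ^ (N + 1) := by
      rw [hform N]
      have := hs1 N (st N).2
      positivity
    intro m hm hne r hr1 hr2
    obtain ⟨n, hn, hn'⟩ := hcov (N + 1) _ hpos m hm hne r hr1 hr2
    refine ⟨n, hn.trans ?_, hn'⟩
    simp only
    rw [hst N]
    exact le_max_right _ _

theorem telescope (hV0 : ∀ n, (0 : X) ∈ V n) (hVV : ∀ n, ∀ u ∈ V (n + 1), ∀ w ∈ V (n + 1), u + w ∈ V n)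
    (w : ℕ → X) (d : ℕ) : ∀ N, (∀ n, N + 1 ≤ n → n < N + 1 + d → w n ∈ V n) →
      ∑ n ∈ Finset.Ico (N + 1) (N + 1 + d), w n ∈ V N := by
  induction d with
  | zero =>
    intro N _
    simpa using hV0 N
  | succ d ih =>
    intro N h
    rw [Finset.sum_eq_sum_Ico_succ_bot (by omega)]
    apply hVV
    · exact h _ le_rfl (by omega)
    · have := ih (N + 1) (fun n h1 h2 => h n (by omega) (by omega))
      have e : N + 1 + (d + 1) = N + 1 + 1 + d := by omega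
      rw [e]
      exact this

/-- partial sums -/
noncomputable def PS (a : ℕ → ℝ) (s : ℕ → 𝕂) (M : ℕ) : X :=
  ∑ n ∈ Finset.range M, ((a n : 𝕂) * s n) • (T ^ (n + 1)) x

theorem ps_diff (hV0 : ∀ n, (0 : X) ∈ V n)
    (hVV : ∀ n, ∀ u ∈ V (n + 1), ∀ w ∈ V (n + 1), u + w ∈ V n)
    (a : ℕ → ℝ) (ν : ℕ → ℕ) (hν : ∀ N, ν N ≤ ν (N + 1))
    (hsm : ∀ N, Small T x V N (a N) (ν N)) (s : ℕ → 𝕂) (N : ℕ)
    (hs : ∀ n, N + 1 ≤ n → ‖s n‖ ≤ n + 1) (M : ℕ) (hM : N + 1 ≤ M) (j : ℕ) (hj : j ≤ ν (N + 1)) :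
    (T ^ j) (PS T x a s M) - (T ^ j) (PS T x a s (N + 1)) ∈ V N := by
  have hνm : Monotone ν := monotone_nat_of_le_succ hν
  obtain ⟨d, rfl⟩ := Nat.exists_eq_add_of_le hM
  rw [← map_sub]
  have h1 : PS T x a s (N + 1 + d) - PS T x a s (N + 1) =
      ∑ n ∈ Finset.Ico (N + 1) (N + 1 + d), ((a n : 𝕂) * s n) • (T ^ (n + 1)) x := by
    unfold PS
    rw [Finset.sum_Ico_eq_sub _ (by omega)]
  rw [h1, map_sum]
  apply telescope V hV0 hVV
  intro n h2 h3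
  rw [map_smul, ← mul_apply_eq_comp, ← pow_add, add_comm]
  exact hsm n (s n) (hs n h2) j (hj.trans (hνm h2))

theorem ps_cauchy (hVb : (𝓝 (0 : X)).HasAntitoneBasis V)
    (hVV : ∀ n, ∀ u ∈ V (n + 1), ∀ w ∈ V (n + 1), u + w ∈ V n)
    (a : ℕ → ℝ) (ν : ℕ → ℕ) (hν : ∀ N, ν N ≤ ν (N + 1))
    (hsm : ∀ N, Small T x V N (a N) (ν N)) (s : ℕ → 𝕂) (C : ℝ)
    (hs : ∀ n, ‖s n‖ ≤ C) : CauchySeq (PS T x a s) := by
  have hV0 : ∀ n, (0 : X) ∈ V n := fun n => mem_of_mem_nhds (hVb.mem n)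
  have hb := hVb.1.uniformity_of_nhds_zero_swapped
  rw [hb.cauchySeq_iff']
  intro k _
  obtain ⟨N1, hN1⟩ := exists_nat_ge C
  refine ⟨max k N1 + 1, fun n hn => ?_⟩
  have h1 := ps_diff T x V hV0 hVV a ν hν hsm s (max k N1) (fun m hm => by
    refine (hs m).trans (hN1.trans ?_)
    have : N1 ≤ m + 1 := by
      have := le_max_right k N1
      omega
    exact_mod_cast this) n hn 0 (Nat.zero_le _)
  rw [pow_zero] at h1
  exact hVb.antitone (le_max_left k N1) h1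

theorem hyper (hVb : (𝓝 (0 : X)).HasAntitoneBasis V)
    (hVV : ∀ n, ∀ u ∈ V (n + 1), ∀ w ∈ V (n + 1), u + w ∈ V n)
    (hBb : ∀ (u : X) (O : Set X), O ∈ 𝓝 u → ∃ m, u ∈ B m ∧ B m ⊆ O)
    (a : ℕ → ℝ) (ν : ℕ → ℕ) (ha0 : ∀ N, 0 < a N) (ha1 : ∀ N, a N ≤ 1) (hν : ∀ N, ν N ≤ ν (N + 1))
    (hsm : ∀ N, Small T x V N (a N) (ν N))
    (hcov : ∀ N, Cov T x B (N + 1) (a N / 2 ^ (N + 1)) (ν (N + 1)))
    (s : ℕ → 𝕂) (C : ℝ) (hs : ∀ n, ‖s n‖ ≤ C) (hs' : ∀ᶠ n in atTop, 1 / 2 ^ (n + 1) ≤ ‖s n‖)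
    (P : 𝕂[X]) (v : X) (hv : Tendsto (fun M => (aeval T P : X →L[𝕂] X) x + PS T x a s M) atTop (𝓝 v)) :
    Dense (range fun n : ℕ => (T ^ n) v) := by
  have hV0 : ∀ n, (0 : X) ∈ V n := fun n => mem_of_mem_nhds (hVb.mem n)
  rw [dense_iff_inter_open]
  rintro U hU ⟨u, hu⟩
  obtain ⟨Cl, hCl1, hCl2, hCl3⟩ := exists_mem_nhds_isClosed_subset (hU.mem_nhds hu)
  have h1 : Tendsto (fun p : X × X => p.1 + p.2) (𝓝 (u, 0)) (𝓝 (u + 0)) :=
    continuous_add.tendsto _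
  rw [add_zero] at h1
  have h2 := h1 hCl1
  rw [nhds_prod_eq] at h2
  obtain ⟨O, hO, W, hW, hOW⟩ := Filter.mem_prod_iff.1 (mem_map.1 h2)
  obtain ⟨m, hm, hmO⟩ := hBb u O hO
  obtain ⟨k, -, hk⟩ := hVb.1.mem_iff.1 hW
  obtain ⟨N0, hN0⟩ := eventually_atTop.1 hs'
  obtain ⟨N1, hN1⟩ : ∃ N1 : ℕ, ∀ j, ‖P.coeff j‖ + C ≤ N1 := by
    obtain ⟨N1, hN1⟩ := exists_nat_ge ((∑ j ∈ Finset.range (P.natDegree + 1), ‖P.coeff j‖) + C)
    refine ⟨N1, fun j => le_trans ?_ hN1⟩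
    have h3 : ‖P.coeff j‖ ≤ ∑ j ∈ Finset.range (P.natDegree + 1), ‖P.coeff j‖ := by
      by_cases hj : j < P.natDegree + 1
      · exact Finset.single_le_sum (f := fun j => ‖P.coeff j‖) (fun i _ => norm_nonneg _)
          (Finset.mem_range.2 hj)
      · rw [Polynomial.coeff_eq_zero_of_natDegree_lt (by omega), norm_zero]
        exact Finset.sum_nonneg (fun i _ => norm_nonneg _)
    linarith
  obtain ⟨N, hNm, hNk, hN0', hN1', hNd⟩ : ∃ N, m ≤ N ∧ k ≤ N ∧ N0 ≤ N ∧ N1 ≤ N ∧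
      P.natDegree ≤ N := by
    refine ⟨m + k + N0 + N1 + P.natDegree, ?_, ?_, ?_, ?_, ?_⟩ <;> omega
  have hCN : C ≤ N1 := by
    have := hN1 0
    have := norm_nonneg (P.coeff 0)
    linarith
  let c : ℕ → 𝕂 := fun j => P.coeff j + (if j = 0 then 0 else (a (j - 1) : 𝕂) * s (j - 1))
  have hc : ∑ j : Fin (N + 1 + 1), c j • (T ^ (j : ℕ)) x =
      (aeval T P : X →L[𝕂] X) x + PS T x a s (N + 1) := by
    have e1 : ∑ j : Fin (N + 1 + 1), c j • (T ^ (j : ℕ)) x =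
        ∑ j ∈ Finset.range (N + 1 + 1), c j • (T ^ j) x :=
      Fin.sum_univ_eq_sum_range (fun j => c j • (T ^ j) x) (N + 1 + 1)
    rw [e1]
    simp only [c, add_smul]
    rw [Finset.sum_add_distrib]
    congr 1
    · rw [aeval_eq_sum_range' (show P.natDegree < N + 1 + 1 by omega),
        ContinuousLinearMap.sum_apply]
      rfl
    · rw [Finset.sum_range_succ']
      simp [PS]
  obtain ⟨n, hn, hn'⟩ := hcov N m (by omega) ⟨u, hm⟩ (fun j => c j) (by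
    intro j
    have e1 : ‖c j‖ ≤ ‖P.coeff j‖ + C := by
      simp only [c]
      refine (norm_add_le _ _).trans (add_le_add_right ?_ _)
      split_ifs with h
      · rw [norm_zero]
        exact (norm_nonneg _).trans (hs 0)
      · rw [norm_mul, RCLike.norm_ofReal, abs_of_pos (ha0 _)]
        calc a (j - 1) * ‖s (j - 1)‖ ≤ 1 * ‖s (j - 1)‖ :=
              mul_le_mul_of_nonneg_right (ha1 _) (norm_nonneg _)
          _ ≤ C := by rw [one_mul]; exact hs _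
    refine e1.trans ((hN1 j).trans ?_)
    exact_mod_cast (by omega : N1 ≤ N + 1)) (by
    have e2 : c ((Fin.last (N + 1) : Fin (N + 1 + 1)) : ℕ) = (a N : 𝕂) * s N := by
      simp only [c, Fin.val_last]
      rw [Polynomial.coeff_eq_zero_of_natDegree_lt (by omega), if_neg (by omega), zero_add]
      simp
    rw [e2, norm_mul, RCLike.norm_ofReal, abs_of_pos (ha0 _), div_eq_mul_one_div]
    exact mul_le_mul_of_nonneg_left (hN0 N hN0') (ha0 _).le)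
  rw [hc] at hn'
  refine ⟨(T ^ n) v, hCl3 ?_, ⟨n, rfl⟩⟩
  have hlim : Tendsto (fun M => (T ^ n) ((aeval T P : X →L[𝕂] X) x + PS T x a s M)) atTop
      (𝓝 ((T ^ n) v)) := ((T ^ n).continuous.tendsto v).comp hv
  refine hCl2.mem_of_tendsto hlim ?_
  filter_upwards [eventually_ge_atTop (N + 1)] with M hM
  have h3 := ps_diff T x V hV0 hVV a ν hν hsm s N (fun i hi => by
    refine (hs i).trans (hCN.trans ?_)
    exact_mod_cast (by omega : N1 ≤ i + 1)) M hM n hn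
  have h4 : (T ^ n) ((aeval T P : X →L[𝕂] X) x + PS T x a s M) =
      (T ^ n) ((aeval T P : X →L[𝕂] X) x + PS T x a s (N + 1)) +
        ((T ^ n) (PS T x a s M) - (T ^ n) (PS T x a s (N + 1))) := by
    rw [map_add, map_add]
    abel
  rw [h4]
  have h5 : ((T ^ n) ((aeval T P : X →L[𝕂] X) x + PS T x a s (N + 1)),
        ((T ^ n) (PS T x a s M) - (T ^ n) (PS T x a s (N + 1)))) ∈ O ×ˢ W :=
    ⟨hmO hn', hk (hVb.antitone hNk h3)⟩
  exact hOW h5

end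

theorem low_bound {𝕂 : Type} [RCLike 𝕂] (c : (Ioo (1 / 2 : ℝ) 1) →₀ 𝕂) (hc : c ≠ 0) :
    ∀ᶠ n : ℕ in atTop, 1 / 2 ^ (n + 1) ≤ ‖c.sum (fun t z => z * (((t : ℝ) ^ n : ℝ) : 𝕂))‖ := by
  have hne : c.support.Nonempty := Finsupp.support_nonempty_iff.2 hc
  obtain ⟨t0, ht0, hmax⟩ := c.support.exists_max_image (fun t => (t : ℝ)) hne
  have ht0c : c t0 ≠ 0 := Finsupp.mem_support_iff.1 ht0
  have ht0p : (0 : ℝ) < t0 := by linarith [t0.2.1]
  have h1 : Tendsto (fun n : ℕ => ∑ t ∈ c.support, c t * ((((t : ℝ) / t0) ^ n : ℝ) : 𝕂)) atTop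
      (𝓝 (∑ t ∈ c.support, if t = t0 then c t0 else 0)) := by
    apply tendsto_finset_sum
    intro t ht
    by_cases h : t = t0
    · subst h
      rw [if_pos rfl]
      have e : ∀ n : ℕ, c t * ((((t : ℝ) / t) ^ n : ℝ) : 𝕂) = c t := by
        intro n
        rw [div_self (ne_of_gt ht0p), one_pow]
        simp
      simp_rw [e]
      exact tendsto_const_nhds
    · rw [if_neg h]
      have hlt : (t : ℝ) / t0 < 1 := by
        rw [div_lt_one ht0p]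
        exact lt_of_le_of_ne (hmax t ht) (fun e => h (Subtype.ext e))
      have hnn : 0 ≤ (t : ℝ) / t0 := by
        have := t.2.1
        positivity
      have h2 := tendsto_pow_atTop_nhds_zero_of_lt_one hnn hlt
      have h3 : Tendsto (fun n : ℕ => ((((t : ℝ) / t0) ^ n : ℝ) : 𝕂)) atTop (𝓝 ((0 : ℝ) : 𝕂)) :=
        (RCLike.continuous_ofReal.tendsto 0).comp h2
      have h4 := h3.const_mul (c t)
      simpa using h4
  rw [Finset.sum_ite_eq' c.support t0, if_pos ht0] at h1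
  have h2 := h1.norm
  have hcpos : 0 < ‖c t0‖ := norm_pos_iff.2 ht0c
  have h3 := h2.eventually (lt_mem_nhds (half_lt_self hcpos))
  have h4 : Tendsto (fun n : ℕ => (2 * (t0 : ℝ)) ^ n) atTop atTop := by
    apply tendsto_pow_atTop_atTop_of_one_lt
    linarith [t0.2.1]
  filter_upwards [h3, h4.eventually_ge_atTop (1 / ‖c t0‖)] with n h5 h6
  have e1 : c.sum (fun t z => z * (((t : ℝ) ^ n : ℝ) : 𝕂)) =
      (((t0 : ℝ) ^ n : ℝ) : 𝕂) * ∑ t ∈ c.support, c t * ((((t : ℝ) / t0) ^ n : ℝ) : 𝕂) := by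
    rw [Finsupp.sum, Finset.mul_sum]
    apply Finset.sum_congr rfl
    intro t _
    have e2 : ((t : ℝ) ^ n : ℝ) = (t0 : ℝ) ^ n * (((t : ℝ) / t0) ^ n) := by
      rw [← mul_pow]
      congr 1
      field_simp
    rw [e2]
    push_cast
    ring
  rw [e1, norm_mul, RCLike.norm_ofReal, abs_of_pos (by positivity)]
  have h7 : 1 ≤ (2 * (t0 : ℝ)) ^ n * ‖c t0‖ := by
    rw [div_le_iff₀ hcpos] at h6
    exact h6
  rw [mul_pow] at h7
  rw [pow_succ, div_le_iff₀ (by positivity)]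
  have h8 : (0 : ℝ) < (t0 : ℝ) ^ n := by positivity
  have h9 : (0 : ℝ) < 2 ^ n := by positivity
  nlinarith [mul_pos h8 h9]

end Pool.Agent.H8.HC
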