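import Mathlib
import Pool.Agent.H8.HC.B

set_option autoImplicit false

namespace Pool.Agent.H8.HC

open Topology Set Polynomial Filter

theorem main (𝕂 : Type) [RCLike 𝕂] (X : Type) [AddCommGroup X] [Module 𝕂 X] [UniformSpace X]
      [IsUniformAddGroup X] [CompleteSpace X] [ContinuousSMul 𝕂 X]
      [TopologicalSpace.MetrizableSpace X] (T : X →L[𝕂] X)
      (hT : ∃ x : X, Dense (Set.range fun n : ℕ => (⇑T)^[n] x)) :
      ∃ M : Submodule 𝕂 X, Dense (M : Set X) ∧
        (∀ x ∈ M, x ≠ 0 → Dense (Set.range fun n : ℕ => (⇑T)^[n] x)) ∧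
        Module.rank 𝕂 M = Module.rank 𝕂 X := by
  rcases subsingleton_or_nontrivial X with hsub | hnt
  · refine ⟨⊤, ?_, ?_, ?_⟩
    · simp
    · intro x _ hx
      exact absurd (Subsingleton.elim x 0) hx
    · exact rank_top 𝕂 X
  obtain ⟨x, hx0⟩ := hT
  have hpow : ∀ (n : ℕ) (y : X), (⇑T)^[n] y = (T ^ n) y := by
    intro n y
    rw [ContinuousLinearMap.coe_pow']
  simp_rw [hpow] at hx0 ⊢
  have hx : Dense (range fun n : ℕ => (T ^ n) x) := hx0
  have hsep : TopologicalSpace.SeparableSpace X := ⟨_, countable_range _, hx⟩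
  have hfc : FirstCountableTopology X := by
    have h2 : ∀ (Y : Type) [TopologicalSpace Y] [TopologicalSpace.MetrizableSpace Y],
        FirstCountableTopology Y := by
      intro Y _ _
      let _ := TopologicalSpace.metrizableSpaceMetric Y
      infer_instance
    exact h2 X
  have hsc : SecondCountableTopology X := by
    have h2 : ∀ (Y : Type) [TopologicalSpace Y] [TopologicalSpace.MetrizableSpace Y]
        [TopologicalSpace.SeparableSpace Y], SecondCountableTopology Y := by
      intro Y _ _ _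
      let _ := TopologicalSpace.metrizableSpaceMetric Y
      exact UniformSpace.secondCountable_of_separable Y
    exact h2 X
  obtain ⟨V, hVb, hVV0⟩ := IsTopologicalAddGroup.exists_antitone_basis_nhds_zero X
  have hVV : ∀ n, ∀ u ∈ V (n + 1), ∀ w ∈ V (n + 1), u + w ∈ V n :=
    fun n u hu w hw => hVV0 n (Set.add_mem_add hu hw)
  obtain ⟨B, hBo, hBb⟩ : ∃ B : ℕ → Set X, (∀ m, IsOpen (B m)) ∧
      ∀ (u : X) (O : Set X), O ∈ 𝓝 u → ∃ m, u ∈ B m ∧ B m ⊆ O := by
    have hc := TopologicalSpace.countable_countableBasis X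
    have hbb := TopologicalSpace.isBasis_countableBasis X
    have hne : (TopologicalSpace.countableBasis X).Nonempty := by
      obtain ⟨u, hu, -, -⟩ := hbb.exists_subset_of_mem_open (mem_univ (0 : X)) isOpen_univ
      exact ⟨u, hu⟩
    obtain ⟨B, hB⟩ := hc.exists_eq_range hne
    refine ⟨B, fun m => hbb.isOpen (hB ▸ mem_range_self m), fun u O hO => ?_⟩
    obtain ⟨b, hb, hub, hbO⟩ := hbb.mem_nhds_iff.1 hO
    rw [hB] at hb
    obtain ⟨m, rfl⟩ := hb
    exact ⟨m, hub, hbO⟩
  obtain ⟨a, ν, ha0, ha1, hsm, hν, hcov⟩ := seq_exists T x B V hx hBo (fun n => hVb.mem n)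
  let s : Ioo (1 / 2 : ℝ) 1 → ℕ → 𝕂 := fun t n => (((t : ℝ) ^ n : ℝ) : 𝕂)
  have hs1 : ∀ t n, ‖s t n‖ ≤ 1 := by
    intro t n
    simp only [s]
    have h0 : (0 : ℝ) < t := by linarith [t.2.1]
    rw [RCLike.norm_ofReal, abs_of_pos (by positivity)]
    exact pow_le_one₀ h0.le t.2.2.le
  have hlim : ∀ t, ∃ y, Tendsto (PS T x a (s t)) atTop (𝓝 y) := fun t =>
    cauchySeq_tendsto_of_complete (ps_cauchy T x V hVb hVV a ν hν hsm (s t) 1 (hs1 t))
  choose y hy using hlim
  let Φ1 : 𝕂[X] →ₗ[𝕂] X :=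
    { toFun := fun P => (aeval T P : X →L[𝕂] X) x
      map_add' := fun P R => by rw [map_add]; rfl
      map_smul' := fun c P => by rw [map_smul]; rfl }
  let Φ2 : ((Ioo (1 / 2 : ℝ) 1) →₀ 𝕂) →ₗ[𝕂] X := Finsupp.linearCombination 𝕂 y
  let Φ : (𝕂[X] × ((Ioo (1 / 2 : ℝ) 1) →₀ 𝕂)) →ₗ[𝕂] X := Φ1.coprod Φ2
  have hΦ : ∀ P c, c ≠ 0 → Dense (range fun n : ℕ => (T ^ n) (Φ (P, c))) := by
    intro P c hc
    let S : ℕ → 𝕂 := fun n => c.sum (fun t z => z * (((t : ℝ) ^ n : ℝ) : 𝕂))
    have hps : ∀ M, PS T x a S M = ∑ t ∈ c.support, c t • PS T x a (s t) M := by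
      intro M
      unfold PS
      simp only [Finset.smul_sum]
      rw [Finset.sum_comm]
      apply Finset.sum_congr rfl
      intro n _
      simp only [S, Finsupp.sum, Finset.mul_sum, Finset.sum_smul, s]
      apply Finset.sum_congr rfl
      intro t _
      rw [smul_smul]
      congr 1
      ring
    refine hyper T x B V hVb hVV hBb a ν ha0 ha1 hν hsm hcov S (∑ t ∈ c.support, ‖c t‖) ?_
      (low_bound c hc) P _ ?_
    · intro n
      simp only [S, Finsupp.sum]
      refine (norm_sum_le _ _).trans (Finset.sum_le_sum fun t _ => ?_)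
      rw [norm_mul]
      exact mul_le_of_le_one_right (norm_nonneg _) (hs1 t n)
    · have h1 : Φ (P, c) = (aeval T P : X →L[𝕂] X) x + ∑ t ∈ c.support, c t • y t := by
        simp only [Φ, Φ1, Φ2, LinearMap.coprod_apply]
        rw [Finsupp.linearCombination_apply, Finsupp.sum]
        rfl
      rw [h1]
      apply Tendsto.add tendsto_const_nhds
      have h2 : PS T x a S = fun M => ∑ t ∈ c.support, c t • PS T x a (s t) M := funext hps
      rw [h2]
      apply tendsto_finset_sum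
      intro t _
      exact (hy t).const_smul (c t)
  have hdense_of : ∀ w ∈ LinearMap.range Φ, w ≠ 0 → Dense (range fun n : ℕ => (T ^ n) w) := by
    rintro w ⟨⟨P, c⟩, rfl⟩ hw
    by_cases hc : c = 0
    · subst hc
      have h1 : Φ (P, 0) = (aeval T P : X →L[𝕂] X) x := by
        simp only [Φ, Φ1, Φ2, LinearMap.coprod_apply, map_zero, add_zero]
        rfl
      have hP : P ≠ 0 := by
        rintro rfl
        apply hw
        rw [h1, map_zero]
        rfl
      rw [h1]
      exact hc_poly T x hx P hP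
    · exact hΦ P c hc
  refine ⟨LinearMap.range Φ, ?_, hdense_of, ?_⟩
  · refine hx.mono ?_
    rintro _ ⟨n, rfl⟩
    refine ⟨(Polynomial.X ^ n, 0), ?_⟩
    simp only [Φ, Φ1, Φ2, LinearMap.coprod_apply, map_zero, add_zero]
    change (aeval T (Polynomial.X ^ n : 𝕂[X]) : X →L[𝕂] X) x = _
    rw [map_pow, aeval_X]
  · apply le_antisymm (Submodule.rank_le _)
    have h1 : Module.rank 𝕂 X ≤ Cardinal.continuum := (rank_le_card 𝕂 X).trans (card_le X)
    refine h1.trans ?_
    let Ψ : ((Ioo (1 / 2 : ℝ) 1) →₀ 𝕂) →ₗ[𝕂] LinearMap.range Φ :=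
      Φ.rangeRestrict ∘ₗ (LinearMap.inr 𝕂 𝕂[X] ((Ioo (1 / 2 : ℝ) 1) →₀ 𝕂))
    have hinj : Function.Injective Ψ := by
      rw [injective_iff_map_eq_zero]
      intro c hc
      by_contra hne
      have h2 : Φ (0, c) = 0 := by
        have := congrArg Subtype.val hc
        exact this
      have h3 := hΦ 0 c hne
      rw [h2] at h3
      have h4 : (range fun n : ℕ => (T ^ n) (0 : X)) ⊆ {0} := by
        rintro _ ⟨n, rfl⟩
        simp
      obtain ⟨w, hw⟩ := exists_ne (0 : X)
      have h5 := h3.mono h4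
      have h6 : w ∈ closure ({0} : Set X) := h5 w
      rw [isClosed_singleton.closure_eq] at h6
      exact hw h6
    have h2 := LinearMap.rank_le_of_injective Ψ hinj
    rw [rank_finsupp_self', Cardinal.mk_Ioo_real (by norm_num)] at h2
    exact h2

end Pool.Agent.H8.HC
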